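import Mathlib

/-!
# MP_26e8bc_co: all jet graphs of very well covered graphs are very well covered
-/

set_option autoImplicit false

namespace Pool.Agent.Results.MP_26e8bc_co.JetsVeryWellCovered

open SimpleGraph Finset

universe u

variable {V : Type u}

/-- `S` is a maximal (by inclusion) independent set of `G`. -/
def MaxIndep (G : SimpleGraph V) (S : Finset V) : Prop :=
  Maximal (fun T : Finset V => G.IsIndepSet (T : Set V)) S

/-- All maximal independent sets have the same size. -/
def WellCovered (G : SimpleGraph V) : Prop :=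
  ∀ S T : Finset V, MaxIndep G S → MaxIndep G T → S.card = T.card

/-- No isolated vertices, well covered, and `|V| = 2 α(G)`. -/
def VeryWellCovered [Fintype V] (G : SimpleGraph V) : Prop :=
  (∀ v, ∃ w, G.Adj v w) ∧ WellCovered G ∧ Fintype.card V = 2 * G.indepNum

/-- The graph of `s`-jets: the vertex `(v, i)` is `v_i`, `0 ≤ i ≤ s`; `v_i` and `w_j` are adjacent
iff `v` and `w` are adjacent in `G` and `i + j ≤ s`. -/
def jets (G : SimpleGraph V) (s : ℕ) : SimpleGraph (V × Fin (s + 1)) where
  Adj p q := G.Adj p.1 q.1 ∧ p.2.1 + q.2.1 ≤ s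
  symm := ⟨fun p q h => ⟨h.1.symm, by have := h.2; omega⟩⟩
  loopless := ⟨fun p h => G.loopless.irrefl _ h.1⟩

theorem exists_maxIndep [Finite V] (G : SimpleGraph V) (A : Finset V)
    (hA : G.IsIndepSet (A : Set V)) : ∃ S, A ⊆ S ∧ MaxIndep G S :=
  Finite.exists_le_maximal (p := fun T : Finset V => G.IsIndepSet (T : Set V)) hA

/-- the neighbourhood of a set -/
noncomputable def Nb [Fintype V] (G : SimpleGraph V) (S : Finset V) : Finset V := by
  classical
  exact univ.filter (fun w => ∃ v ∈ S, G.Adj v w)

theorem mem_Nb [Fintype V] (G : SimpleGraph V) (S : Finset V) (w : V) :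
    w ∈ Nb G S ↔ ∃ v ∈ S, G.Adj v w := by
  unfold Nb
  simp

theorem hall_aux [Fintype V] (G : SimpleGraph V) (hiso : ∀ v, ∃ w, G.Adj v w)
    (hwc : WellCovered G) : ∀ (n : ℕ) (S : Finset V), S.card = n → G.IsIndepSet (S : Set V) →
      S.card ≤ (Nb G S).card := by
  classical
  intro n
  induction n using Nat.strong_induction_on with
  | _ n ih =>
    intro S hn hS
    rcases S.eq_empty_or_nonempty with h | ⟨s, hs⟩
    · rw [h]; simp
    by_contra hlt
    have hlt := not_le.1 hlt
    have hcs : (S.erase s).card + 1 = S.card := card_erase_add_one hs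
    have hall : ∀ A : Finset {x // x ∈ S.erase s},
        A.card ≤ (A.biUnion (fun x => univ.filter (fun w => G.Adj x.1 w))).card := by
      intro A
      have hA1 : (A.map (Function.Embedding.subtype _)).card = A.card := card_map _
      have hsub : A.map (Function.Embedding.subtype _) ⊆ S.erase s := by
        intro x hx
        rw [Finset.mem_map] at hx
        obtain ⟨y, _, rfl⟩ := hx
        exact y.2
      have hlt2 : (A.map (Function.Embedding.subtype _)).card < n := by
        have := card_le_card hsub
        omega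
      have h1 := ih _ hlt2 (A.map (Function.Embedding.subtype _)) rfl
        (hS.mono (by
          intro x hx
          exact mem_of_mem_erase (hsub hx)))
      rw [hA1] at h1
      refine h1.trans (card_le_card ?_)
      intro w hw
      rw [mem_Nb] at hw
      obtain ⟨v, hv, hvw⟩ := hw
      rw [Finset.mem_map] at hv
      obtain ⟨y, hy, rfl⟩ := hv
      rw [mem_biUnion]
      exact ⟨y, hy, mem_filter.2 ⟨mem_univ _, hvw⟩⟩
    obtain ⟨f, hf, hf2⟩ := (Finset.all_card_le_biUnion_card_iff_exists_injective _).1 hall
    have hadj : ∀ x : {x // x ∈ S.erase s}, G.Adj x.1 (f x) := fun x => (mem_filter.1 (hf2 x)).2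
    -- the image of f is the neighbourhood of S
    have himg : univ.image f = Nb G S := by
      apply eq_of_subset_of_card_le
      · intro w hw
        rw [Finset.mem_image] at hw
        obtain ⟨x, _, rfl⟩ := hw
        rw [mem_Nb]
        exact ⟨x.1, mem_of_mem_erase x.2, hadj x⟩
      · rw [card_image_of_injective _ hf, card_univ, Fintype.card_coe]
        omega
    obtain ⟨t, hst⟩ := hiso s
    obtain ⟨K, htK, hK⟩ := exists_maxIndep G {t} (by
      rw [coe_singleton]; exact Set.pairwise_singleton _ _)
    have htK' : t ∈ K := htK (mem_singleton_self t)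
    have hsK : s ∉ K := by
      intro hsK
      exact hK.1 hsK htK' hst.ne hst
    -- few elements of K in S ∪ N(S)
    have hfew : (K ∩ S).card + (K ∩ Nb G S).card ≤ (S.erase s).card := by
      have h1 : K ∩ S = (univ.filter (fun x : {x // x ∈ S.erase s} => x.1 ∈ K)).map
          (Function.Embedding.subtype _) := by
        ext x
        simp only [Finset.mem_inter, Finset.mem_map, mem_filter, mem_univ, true_and,
          Function.Embedding.subtype_apply, Subtype.exists, exists_and_right, exists_eq_right,
          mem_erase]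
        constructor
        · rintro ⟨h1, h2⟩
          exact ⟨⟨fun h => hsK (h ▸ h1), h2⟩, h1⟩
        · rintro ⟨⟨_, h2⟩, h1⟩
          exact ⟨h1, h2⟩
      have h2 : K ∩ Nb G S = (univ.filter (fun x : {x // x ∈ S.erase s} => f x ∈ K)).image f := by
        rw [← himg]
        ext x
        simp only [Finset.mem_inter, Finset.mem_image, mem_univ, true_and, mem_filter]
        constructor
        · rintro ⟨h1, y, rfl⟩
          exact ⟨y, h1, rfl⟩
        · rintro ⟨y, h1, rfl⟩
          exact ⟨h1, y, rfl⟩
      rw [h1, h2, card_map, card_image_of_injective _ hf]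
      have h3 : Disjoint (univ.filter (fun x : {x // x ∈ S.erase s} => x.1 ∈ K))
          (univ.filter (fun x : {x // x ∈ S.erase s} => f x ∈ K)) := by
        rw [disjoint_filter]
        intro x _ hx1 hx2
        exact hK.1 hx1 hx2 (hadj x).ne (hadj x)
      rw [← card_union_of_disjoint h3]
      calc _ ≤ (univ : Finset {x // x ∈ S.erase s}).card := card_le_card (subset_univ _)
        _ = _ := by rw [card_univ, Fintype.card_coe]
    -- the exchanged set
    have hind : G.IsIndepSet (((K \ Nb G S) ∪ S : Finset V) : Set V) := by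
      intro x hx y hy hxy hadj'
      rw [Finset.mem_coe, Finset.mem_union, mem_sdiff] at hx hy
      rcases hx with ⟨hx, hx'⟩ | hx
      · rcases hy with ⟨hy, _⟩ | hy
        · exact hK.1 hx hy hxy hadj'
        · exact hx' ((mem_Nb G S x).2 ⟨y, hy, hadj'.symm⟩)
      · rcases hy with ⟨_, hy'⟩ | hy
        · exact hy' ((mem_Nb G S y).2 ⟨x, hx, hadj'⟩)
        · exact hS hx hy hxy hadj'
    obtain ⟨K', hKK', hK'⟩ := exists_maxIndep G _ hind
    have h4 := hwc K K' hK hK'
    have h5 := card_le_card hKK'
    have h6 : K.card ≤ ((K \ Nb G S) \ S).card + (K ∩ Nb G S).card + (K ∩ S).card := by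
      have e1 := card_sdiff_add_card_inter K (Nb G S)
      have e2 := card_sdiff_add_card_inter (K \ Nb G S) S
      have e3 : ((K \ Nb G S) ∩ S).card ≤ (K ∩ S).card :=
        card_le_card (inter_subset_inter_right sdiff_subset)
      omega
    have h7 : ((K \ Nb G S) ∪ S).card = ((K \ Nb G S) \ S).card + S.card := by
      rw [← card_union_of_disjoint sdiff_disjoint, sdiff_union_self_eq_union]
    omega

/-- a very well covered graph has a perfect matching with Favaron's property -/
theorem matching_of_vwc [Fintype V] (G : SimpleGraph V) (h : VeryWellCovered G) :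
    ∃ m : V → V, (∀ v, m (m v) = v) ∧ (∀ v, G.Adj v (m v)) ∧
      (∀ v u w, G.Adj u v → G.Adj w (m v) → G.Adj u w) := by
  classical
  obtain ⟨hiso, hwc, hcard⟩ := h
  have hsize : ∀ S, MaxIndep G S → 2 * S.card = Fintype.card V := by
    intro S hS
    obtain ⟨T, hT⟩ := G.exists_isNIndepSet_indepNum
    obtain ⟨T', hTT', hT'⟩ := exists_maxIndep G T hT.isIndepSet
    have h1 := card_le_card hTT'
    have h2 : T'.card ≤ G.indepNum := hT'.1.card_le_indepNum
    have h3 := hT.card_eq
    rw [hwc S T' hS hT', hcard]
    omega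
  obtain ⟨I, _, hI⟩ := exists_maxIndep G ∅ (by simp)
  have hall : ∀ A : Finset {x // x ∈ I},
      A.card ≤ (A.biUnion (fun x => univ.filter (fun w => G.Adj x.1 w))).card := by
    intro A
    have hA1 : (A.map (Function.Embedding.subtype _)).card = A.card := card_map _
    have h1 := hall_aux G hiso hwc _ (A.map (Function.Embedding.subtype _)) rfl
      (hI.1.mono (by
        intro x hx
        rw [Finset.mem_coe, Finset.mem_map] at hx
        obtain ⟨y, _, rfl⟩ := hx
        exact y.2))
    rw [hA1] at h1
    refine h1.trans (card_le_card ?_)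
    intro w hw
    rw [mem_Nb] at hw
    obtain ⟨v, hv, hvw⟩ := hw
    rw [Finset.mem_map] at hv
    obtain ⟨y, hy, rfl⟩ := hv
    rw [mem_biUnion]
    exact ⟨y, hy, mem_filter.2 ⟨mem_univ _, hvw⟩⟩
  obtain ⟨f, hf, hf2⟩ := (Finset.all_card_le_biUnion_card_iff_exists_injective _).1 hall
  have hadj : ∀ x : {x // x ∈ I}, G.Adj x.1 (f x) := fun x => (mem_filter.1 (hf2 x)).2
  have hfI : ∀ x, f x ∉ I := by
    intro x hx
    exact hI.1 x.2 hx (hadj x).ne (hadj x)
  have himg : univ.image f = Iᶜ := by
    apply eq_of_subset_of_card_le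
    · intro w hw
      rw [Finset.mem_image] at hw
      obtain ⟨x, _, rfl⟩ := hw
      exact mem_compl.2 (hfI x)
    · rw [card_image_of_injective _ hf, card_univ, Fintype.card_coe, card_compl]
      have := hsize I hI
      omega
  have hsurj : ∀ w, w ∉ I → ∃ x, f x = w := by
    intro w hw
    have : w ∈ univ.image f := by rw [himg]; exact mem_compl.2 hw
    rw [Finset.mem_image] at this
    obtain ⟨x, _, hx⟩ := this
    exact ⟨x, hx⟩
  set m : V → V := fun v => if hv : v ∈ I then f ⟨v, hv⟩ else (Classical.choose (hsurj v hv)).1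
    with hm
  have m1 : ∀ v (hv : v ∈ I), m v = f ⟨v, hv⟩ := fun v hv => by simp only [hm, dif_pos hv]
  have m2 : ∀ v (hv : v ∉ I), ∃ x : {x // x ∈ I}, f x = v ∧ m v = x.1 := fun v hv => by
    refine ⟨Classical.choose (hsurj v hv), Classical.choose_spec (hsurj v hv), ?_⟩
    simp only [hm, dif_neg hv]
  have hinv : ∀ v, m (m v) = v := by
    intro v
    by_cases hv : v ∈ I
    · rw [m1 v hv]
      obtain ⟨x, hx1, hx2⟩ := m2 (f ⟨v, hv⟩) (hfI _)
      rw [hx2, hf hx1]
    · obtain ⟨x, hx1, hx2⟩ := m2 v hv
      rw [hx2, m1 x.1 x.2]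
      exact hx1
  have hmadj : ∀ v, G.Adj v (m v) := by
    intro v
    by_cases hv : v ∈ I
    · rw [m1 v hv]
      exact hadj ⟨v, hv⟩
    · obtain ⟨x, hx1, hx2⟩ := m2 v hv
      rw [hx2, ← hx1]
      exact (hadj x).symm
  refine ⟨m, hinv, hmadj, ?_⟩
  intro v u w huv hwv
  by_contra hnot
  -- extend {u, w}
  have hind : G.IsIndepSet (({u, w} : Finset V) : Set V) := by
    intro a ha b hb hab hadj'
    simp only [coe_insert, coe_singleton, Set.mem_insert_iff, Set.mem_singleton_iff] at ha hb
    rcases ha with rfl | rfl <;> rcases hb with rfl | rfl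
    · exact hab rfl
    · exact hnot hadj'
    · exact hnot hadj'.symm
    · exact hab rfl
  obtain ⟨J, hJ1, hJ⟩ := exists_maxIndep G _ hind
  have huJ : u ∈ J := hJ1 (by simp)
  have hwJ : w ∈ J := hJ1 (by simp)
  have hvJ : v ∉ J := fun h => hJ.1 huJ h huv.ne huv
  have hmvJ : m v ∉ J := fun h => hJ.1 hwJ h hwv.ne hwv
  have hminj : Function.Injective m := fun a b hab => by rw [← hinv a, hab, hinv b]
  have h1 : Disjoint (J ∪ {v}) (J.image m) := by
    rw [Finset.disjoint_left]
    intro a ha hb
    rw [Finset.mem_image] at hb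
    obtain ⟨b, hb, rfl⟩ := hb
    rw [Finset.mem_union, mem_singleton] at ha
    rcases ha with ha | ha
    · exact hJ.1 hb ha (hmadj b).ne (hmadj b)
    · apply hmvJ
      rw [← ha, hinv]
      exact hb
  have h2 : m v ∉ (J ∪ {v}) ∪ (J.image m) := by
    rw [Finset.mem_union, Finset.mem_union, mem_singleton, Finset.mem_image]
    rintro ((h | h) | ⟨b, hb, hbv⟩)
    · exact hmvJ h
    · exact (hmadj v).ne h.symm
    · exact hvJ (hminj hbv ▸ hb)
  have h3 : ((J ∪ {v}) ∪ (J.image m)).card = (J.card + 1) + J.card := by
    rw [card_union_of_disjoint h1, card_image_of_injective _ hminj,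
      card_union_of_disjoint (disjoint_singleton_right.2 hvJ), card_singleton]
  have h4 : ((J ∪ {v}) ∪ (J.image m)).card ≤ Fintype.card V := card_le_univ _
  have h5 := hsize J hJ
  omega

/-- conversely, such a matching makes the graph very well covered -/
theorem vwc_of_matching [Fintype V] (G : SimpleGraph V) (m : V → V) (hinv : ∀ v, m (m v) = v)
    (hadj : ∀ v, G.Adj v (m v)) (hP : ∀ v u w, G.Adj u v → G.Adj w (m v) → G.Adj u w) :
    VeryWellCovered G := by
  classical
  have hminj : Function.Injective m := fun a b hab => by rw [← hinv a, hab, hinv b]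
  have hsize : ∀ S, MaxIndep G S → 2 * S.card = Fintype.card V := by
    intro S hS
    have hdom : ∀ v, v ∉ S → ∃ u ∈ S, G.Adj u v := by
      intro v hv
      by_contra hcon
      push Not at hcon
      have hind : G.IsIndepSet ((insert v S : Finset V) : Set V) := by
        intro a ha b hb hab hadj'
        rw [Finset.mem_coe, Finset.mem_insert] at ha hb
        rcases ha with rfl | ha
        · rcases hb with rfl | hb
          · exact hab rfl
          · exact hcon b hb hadj'.symm
        · rcases hb with rfl | hb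
          · exact hcon a ha hadj'
          · exact hS.1 ha hb hab hadj'
      have := hS.2 hind (subset_insert v S)
      exact hv (this (mem_insert_self v S))
    have h1 : Disjoint S (S.image m) := by
      rw [Finset.disjoint_left]
      intro a ha hb
      rw [Finset.mem_image] at hb
      obtain ⟨b, hb, rfl⟩ := hb
      exact hS.1 hb ha (hadj b).ne (hadj b)
    have h2 : S ∪ S.image m = univ := by
      rw [eq_univ_iff_forall]
      intro v
      rw [Finset.mem_union, Finset.mem_image]
      by_cases hv : v ∈ S
      · exact Or.inl hv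
      · right
        refine ⟨m v, ?_, hinv v⟩
        by_contra hmv
        obtain ⟨u, hu, huv⟩ := hdom v hv
        obtain ⟨w, hw, hwv⟩ := hdom (m v) hmv
        have := hP v u w huv hwv
        exact hS.1 hu hw this.ne this
    rw [← card_univ, ← h2, card_union_of_disjoint h1, card_image_of_injective _ hminj]
    omega
  refine ⟨fun v => ⟨m v, hadj v⟩, ?_, ?_⟩
  · intro S T hS hT
    have h1 := hsize S hS
    have h2 := hsize T hT
    omega
  · obtain ⟨T, hT⟩ := G.exists_isNIndepSet_indepNum
    obtain ⟨T', hTT', hT'⟩ := exists_maxIndep G T hT.isIndepSet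
    have h1 := card_le_card hTT'
    have h2 : T'.card ≤ G.indepNum := hT'.1.card_le_indepNum
    have h3 := hT.card_eq
    have h4 := hsize T' hT'
    omega

/-- **Q1: yes.** For every very well covered graph `G` and every `s ≥ 0` the graph of `s`-jets of `G`
is very well covered. -/
theorem result : ∀ (V : Type u) [Fintype V] (G : SimpleGraph V), VeryWellCovered G →
    ∀ s : ℕ, VeryWellCovered (jets G s) := by
  intro V _ G hG s
  obtain ⟨m, hinv, hadj, hP⟩ := matching_of_vwc G hG
  refine vwc_of_matching (jets G s) (fun p => (m p.1, Fin.rev p.2)) ?_ ?_ ?_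
  · rintro ⟨v, i⟩
    simp [hinv]
  · rintro ⟨v, i⟩
    refine ⟨hadj v, ?_⟩
    simp only [Fin.val_rev]
    omega
  · rintro ⟨v, i⟩ ⟨u, a⟩ ⟨w, b⟩ ⟨h1, h2⟩ ⟨h3, h4⟩
    refine ⟨hP v u w h1 h3, ?_⟩
    simp only [Fin.val_rev] at h2 h4 ⊢
    have := i.2
    omega

end Pool.Agent.Results.MP_26e8bc_co.JetsVeryWellCovered
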